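import Pool.Agent.TH188.ARC.G9
import Pool.Agent.W418.Gen4

/-!
MP_602153_ag: for every integral projective scheme `X` over `ℚ` with regular local rings and every
integer `d` there is an integral projective flat model of `X` over `ℤ` which is regular at all
points of the closures of all the points of `X` with values in number fields of degree at most `d`.
-/

set_option autoImplicit false

open AlgebraicGeometry CategoryTheory CategoryTheory.Limits

namespace Pool.Agent.Results.MP_602153_ag.BoundedDegree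

theorem result :
    ∀ (X : Scheme.{0}), IsIntegral X →
      (∃ (A : Type) (_ : CommRing A) (_ : Algebra ℚ A) (𝒜 : ℕ → Submodule ℚ A)
          (_ : GradedAlgebra 𝒜),
          (∀ a ∈ 𝒜 0, ∃ q : ℚ, algebraMap ℚ A q = a) ∧
          (∃ s : Finset A, (∀ a ∈ s, a ∈ 𝒜 1) ∧ Algebra.adjoin ℚ (s : Set A) = ⊤) ∧
          Nonempty (X ≅ Proj 𝒜)) →
      (∀ x : X, IsRegularLocalRing (X.presheaf.stalk x)) →
      ∀ d : ℕ,
      ∃ (Y : Scheme.{0})
        (e : pullback (specZIsTerminal.from Y)
          (specZIsTerminal.from (Spec (CommRingCat.of ℚ))) ≅ X),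
        IsIntegral Y ∧
        IsLocallyNoetherian Y ∧
        (∃ (A : Type) (_ : CommRing A) (𝒜 : ℕ → Submodule ℤ A) (_ : GradedAlgebra 𝒜),
          (∀ a ∈ 𝒜 0, ∃ n : ℤ, (n : A) = a) ∧
          (∃ s : Finset A, (∀ a ∈ s, a ∈ 𝒜 1) ∧ Algebra.adjoin ℤ (s : Set A) = ⊤) ∧
          Nonempty (Y ≅ Proj 𝒜)) ∧
        Flat (specZIsTerminal.from Y) ∧
        ∀ (L : Type) [Field L] [NumberField L], Module.finrank ℚ L ≤ d →
          ∀ (ψ : Spec (CommRingCat.of L) ⟶ X) (p : Spec (CommRingCat.of L)),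
          ∀ z ∈ closure ({(ψ ≫ e.inv ≫ pullback.fst _ _) p} : Set Y),
            IsRegularLocalRing (Y.presheaf.stalk z) := by
  intro X hX hproj hreg d
  obtain ⟨A, _, _, 𝒜, _, h0, ⟨s, hs, hgen⟩, ⟨i⟩⟩ := hproj
  obtain ⟨F, _, _, iZ, _, M, g, hg, hg0, e, hM, he, hall⟩ :=
    Pool.Agent.TH188.ARC.proj_degree (O := ℤ)
      (fun o => isIntegral_algebraMap (R := ℤ) (A := ℤ) (x := o)) _ hreg 𝒜
      h0 s hs hgen i rfl d
  obtain rfl : iZ = Ring.toIntAlgebra F := Subsingleton.elim _ _
  have hF : CharZero F := charZero_of_injective_ringHom (algebraMap ℚ F).injective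
  have key : ∀ (q : Pool.Agent.H968R2.Quad.model M ⟶ Spec (CommRingCat.of ℤ))
      (r : Spec (CommRingCat.of ℚ) ⟶ Spec (CommRingCat.of ℤ)),
      ∃ (e : pullback q r ≅ X),
        ∀ (L : Type) [Field L] [NumberField L], Module.finrank ℚ L ≤ d →
          ∀ (ψ : Spec (CommRingCat.of L) ⟶ X) (p : Spec (CommRingCat.of L)),
          ∀ z ∈ closure ({(ψ ≫ e.inv ≫ pullback.fst _ _) p} :
            Set (Pool.Agent.H968R2.Quad.model M)),
          IsRegularLocalRing ((Pool.Agent.H968R2.Quad.model M).presheaf.stalk z) := by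
    intro q r
    obtain rfl : q = Pool.Agent.H968R2.Quad.modelMap M := specZIsTerminal.hom_ext _ _
    obtain rfl : r = Spec.map (CommRingCat.ofHom (algebraMap ℤ ℚ)) := specZIsTerminal.hom_ext _ _
    refine ⟨e, fun L _ _ hL ψ p z hz => ?_⟩
    have hp : p = Pool.Agent.TH188.ARC.thePt L :=
      Subsingleton.elim (α := PrimeSpectrum L) p (Pool.Agent.TH188.ARC.thePt L)
    rw [hp] at hz
    exact hall L hL ψ z (specializes_iff_mem_closure.2 hz)
  obtain ⟨e', h1⟩ := key (specZIsTerminal.from _) (specZIsTerminal.from _)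
  exact ⟨Pool.Agent.H968R2.Quad.model M, e',
    Pool.Agent.H968R2.Quad.model_integral M g hg hg0, Pool.Agent.W418.model_noeth M hM,
    Pool.Agent.W418.model_projective M hM, Pool.Agent.W418.model_flat M, h1⟩

end Pool.Agent.Results.MP_602153_ag.BoundedDegree
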