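import Pool.Agent.TH188.ARC.G5
import Pool.Agent.W418.Gen4

/-!
MP_602153_ag: for every integral projective scheme `X` over `ℚ` with regular local rings, every
discrete valuation ring `V` with fraction field `L` and every `L`-valued point of `X` there is an
integral projective flat model of `X` over `ℤ` to which the point extends as a `V`-valued point
whose closed point is a regular point of the model.
-/

set_option autoImplicit false

open AlgebraicGeometry CategoryTheory CategoryTheory.Limits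

namespace Pool.Agent.Results.MP_602153_ag.TraitModels

theorem result :
    ∀ (X : Scheme.{0}), IsIntegral X →
      (∃ (A : Type) (_ : CommRing A) (_ : Algebra ℚ A) (𝒜 : ℕ → Submodule ℚ A)
          (_ : GradedAlgebra 𝒜),
          (∀ a ∈ 𝒜 0, ∃ q : ℚ, algebraMap ℚ A q = a) ∧
          (∃ s : Finset A, (∀ a ∈ s, a ∈ 𝒜 1) ∧ Algebra.adjoin ℚ (s : Set A) = ⊤) ∧
          Nonempty (X ≅ Proj 𝒜)) →
      (∀ x : X, IsRegularLocalRing (X.presheaf.stalk x)) →
      ∀ (L : Type) [Field L] (V : ValuationSubring L) [IsDiscreteValuationRing V]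
        (ψ : Spec (CommRingCat.of L) ⟶ X),
      ∃ (Y : Scheme.{0})
        (e : pullback (specZIsTerminal.from Y)
          (specZIsTerminal.from (Spec (CommRingCat.of ℚ))) ≅ X)
        (ψ' : Spec (CommRingCat.of V) ⟶ Y),
        IsIntegral Y ∧
        IsLocallyNoetherian Y ∧
        (∃ (A : Type) (_ : CommRing A) (𝒜 : ℕ → Submodule ℤ A) (_ : GradedAlgebra 𝒜),
          (∀ a ∈ 𝒜 0, ∃ n : ℤ, (n : A) = a) ∧
          (∃ s : Finset A, (∀ a ∈ s, a ∈ 𝒜 1) ∧ Algebra.adjoin ℤ (s : Set A) = ⊤) ∧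
          Nonempty (Y ≅ Proj 𝒜)) ∧
        Flat (specZIsTerminal.from Y) ∧
        Spec.map (CommRingCat.ofHom V.subtype) ≫ ψ' = ψ ≫ e.inv ≫ pullback.fst _ _ ∧
        IsRegularLocalRing (Y.presheaf.stalk (ψ' (IsLocalRing.closedPoint V))) := by
  intro X hX hproj hreg L _ V _ ψ
  obtain ⟨A, _, _, 𝒜, _, h0, ⟨s, hs, hgen⟩, ⟨i⟩⟩ := hproj
  obtain ⟨κ₀, hκ₀⟩ := Spec.map_surjective (ψ ≫ i.hom ≫ Proj.toSpecZero 𝒜 ≫
    Spec.map (CommRingCat.ofHom (algebraMap ℚ (𝒜 0))))
  have hL : CharZero L := charZero_of_injective_ringHom κ₀.hom.injective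
  obtain ⟨F, _, _, iZ, _, M, g, hg, hg0, e, ψ', hM, he, hψ', hr⟩ :=
    Pool.Agent.TH188.ARC.proj_trait (O := ℤ) _ hreg 𝒜 h0 s hs hgen i rfl V ψ (by
      intro κ o
      rw [eq_intCast, map_intCast]
      exact intCast_mem V o)
  obtain rfl : iZ = Ring.toIntAlgebra F := Subsingleton.elim _ _
  have hF : CharZero F := charZero_of_injective_ringHom (algebraMap ℚ F).injective
  have key : ∀ (q : Pool.Agent.H968R2.Quad.model M ⟶ Spec (CommRingCat.of ℤ))
      (r : Spec (CommRingCat.of ℚ) ⟶ Spec (CommRingCat.of ℤ)),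
      ∃ (e : pullback q r ≅ X) (ψ' : Spec (CommRingCat.of V) ⟶ Pool.Agent.H968R2.Quad.model M),
        Spec.map (CommRingCat.ofHom V.subtype) ≫ ψ' = ψ ≫ e.inv ≫ pullback.fst _ _ ∧
        IsRegularLocalRing ((Pool.Agent.H968R2.Quad.model M).presheaf.stalk
          (ψ' (IsLocalRing.closedPoint V))) := by
    intro q r
    obtain rfl : q = Pool.Agent.H968R2.Quad.modelMap M := specZIsTerminal.hom_ext _ _
    obtain rfl : r = Spec.map (CommRingCat.ofHom (algebraMap ℤ ℚ)) := specZIsTerminal.hom_ext _ _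
    exact ⟨e, ψ', hψ', hr⟩
  obtain ⟨e', ψ'', h1, h2⟩ := key (specZIsTerminal.from _) (specZIsTerminal.from _)
  exact ⟨Pool.Agent.H968R2.Quad.model M, e', ψ'',
    Pool.Agent.H968R2.Quad.model_integral M g hg hg0, Pool.Agent.W418.model_noeth M hM,
    Pool.Agent.W418.model_projective M hM, Pool.Agent.W418.model_flat M, h1, h2⟩

end Pool.Agent.Results.MP_602153_ag.TraitModels
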